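import Pool.Agent.U160.RF.QOne
set_option autoImplicit false

/-!
# Large values and moments for randomly perturbed integers: the forms for the frequencies `N ≤ n ≤ 2N`

Deduced from the mean square theorem `Pool.Agent.U160.RF.ae_lsum` (helper160).
-/

namespace Pool.Agent.U485.RF

open MeasureTheory Finset Filter Pool.Agent.U160.RF

/-- the Dirichlet polynomial with the frequencies `log (n + θ n)`, `N ≤ n ≤ 2N` -/
noncomputable def P (θ : ℕ → ℝ) (b : ℕ → ℂ) (N : ℕ) (t : ℝ) : ℂ :=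
  ∑ n ∈ Finset.Icc N (2 * N), b n * ((n + θ n : ℝ) : ℂ) ^ ((t : ℂ) * Complex.I)

/-- the sum of the squares of the coefficients -/
noncomputable def X (b : ℕ → ℂ) (N : ℕ) : ℝ := ∑ n ∈ Finset.Icc N (2 * N), ‖b n‖ ^ 2

theorem X_nonneg (b : ℕ → ℂ) (N : ℕ) : 0 ≤ X b N := sum_nonneg fun _ _ => sq_nonneg _

/-- 1-separated -/
def Sep1 (S : Finset ℝ) : Prop := ∀ t ∈ S, ∀ u ∈ S, t ≠ u → 1 ≤ |t - u|

/-- coefficients cut off to `[N, 2N]` and shifted by one -/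
noncomputable def cut (b : ℕ → ℂ) (N : ℕ) (k : ℕ) : ℂ := if k + 1 ∈ Finset.Icc N (2 * N) then b (k + 1) else 0

theorem ae_mem : ∀ᵐ θ ∂mu, ∀ n, θ n ∈ Set.Icc (0 : ℝ) 1 := by
  rw [ae_all_iff]
  intro n
  have h1 : mu.map (fun θ => θ n) = nu := by
    unfold mu
    exact Measure.infinitePi_map_eval (fun _ => nu) n
  have h2 : ∀ᵐ x ∂nu, x ∈ Set.Icc (0 : ℝ) 1 := by
    unfold nu
    exact ae_restrict_mem measurableSet_Icc
  rw [← h1] at h2
  exact ae_of_ae_map (measurable_pi_apply n).aemeasurable h2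

theorem Icc_im (N : ℕ) (hN : 1 ≤ N) :
    (range (2 * N)).filter (fun k => k + 1 ∈ Finset.Icc N (2 * N)) = (Finset.Icc N (2 * N)).image (· - 1) := by
  ext k
  simp only [mem_filter, mem_range, mem_Icc, mem_image]
  constructor
  · rintro ⟨h1, h2, h3⟩
    exact ⟨k + 1, ⟨h2, h3⟩, by omega⟩
  · rintro ⟨n, ⟨h1, h2⟩, rfl⟩
    omega

theorem P_link (θ : ℕ → ℝ) (hθ : ∀ n, θ n ∈ Set.Icc (0 : ℝ) 1) (b : ℕ → ℂ) (N : ℕ) (hN : 1 ≤ N) (t : ℝ) :
    P θ b N t = DD (cut b N) θ (2 * N) (-t) := by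
  unfold DD cut P
  simp_rw [ite_mul, zero_mul]
  rw [← sum_filter, Icc_im N hN, sum_image]
  · apply sum_congr rfl
    intro n hn
    have hn1 : 1 ≤ n := by
      have := (mem_Icc.mp hn).1
      omega
    have h1 : n - 1 + 1 = n := by omega
    rw [h1]
    have h2 : cl (θ n) = θ n := cl_eq (hθ _).1 (hθ _).2
    have hn0 : (1 : ℝ) ≤ n := by exact_mod_cast hn1
    have h3 : (0 : ℝ) < n + θ n := by
      have := (hθ n).1
      linarith
    have h4 : lam (n - 1) θ = Real.log (n + θ n) := by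
      unfold lam
      rw [h1, h2]
      congr 2
      have : ((n - 1 : ℕ) : ℝ) = (n : ℝ) - 1 := by
        push_cast [Nat.cast_sub hn1]
        ring
      rw [this]
      ring
    rw [h4, ee_log (-t) _ h3]
    push_cast
    rw [neg_neg]
  · intro x hx y hy h
    have hx1 := (mem_Icc.mp hx).1
    have hy1 := (mem_Icc.mp hy).1
    simp only at h
    omega

theorem nb_link (b : ℕ → ℂ) (N : ℕ) (hN : 1 ≤ N) : nb (cut b N) (2 * N) = X b N := by
  unfold nb cut X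
  have : ∀ k, ‖(if k + 1 ∈ Finset.Icc N (2 * N) then b (k + 1) else 0 : ℂ)‖ ^ 2 =
      if k + 1 ∈ Finset.Icc N (2 * N) then ‖b (k + 1)‖ ^ 2 else 0 := by
    intro k
    split_ifs
    · rfl
    · simp
  simp_rw [this]
  rw [← sum_filter, Icc_im N hN, sum_image]
  · apply sum_congr rfl
    intro n hn
    have hn1 : 1 ≤ n := by
      have := (mem_Icc.mp hn).1
      omega
    have h1 : n - 1 + 1 = n := by omega
    rw [h1]
  · intro x hx y hy h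
    have hx1 := (mem_Icc.mp hx).1
    have hy1 := (mem_Icc.mp hy).1
    simp only at h
    omega

/-- the mean square bound with the constant `C`, exponent `B` -/
def MS (θ : ℕ → ℝ) (B : ℕ) (C : ℝ) : Prop := ∀ (N : ℕ) (t₀ : ℝ) (b : ℕ → ℂ) (W : Finset ℝ),
  1 ≤ N → (∀ t ∈ W, t₀ ≤ t ∧ t ≤ t₀ + (N : ℝ) ^ B) → Sep1 W →
    ∑ t ∈ W, ‖P θ b N t‖ ^ 2 ≤ C * (N + W.card) * Real.log (2 * N) ^ 5 * X b N

theorem ae_MS : ∀ᵐ θ ∂mu, (∀ n, θ n ∈ Set.Icc (0 : ℝ) 1) ∧ ∀ B : ℕ, ∃ C : ℝ, 1 ≤ C ∧ MS θ B C := by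
  filter_upwards [ae_mem, ae_all_iff.2 ae_lsum] with θ hθ hs
  refine ⟨hθ, fun B => ?_⟩
  obtain ⟨C, hC⟩ := hs B
  refine ⟨2 * |C| + 1, by linarith [abs_nonneg C], ?_⟩
  intro N t₀ b W hN h0 hW
  have hN1 : (1 : ℝ) ≤ N := by exact_mod_cast hN
  have hlog : 0 ≤ Real.log (2 * N) := Real.log_nonneg (by linarith)
  have hX := X_nonneg b N
  set S : Finset ℝ := W.image (fun t => -t) with hS
  have hSc : S.card = W.card := by
    rw [hS]
    exact card_image_of_injective _ neg_injective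
  have hSep : Sep S := by
    intro t ht u hu htu
    obtain ⟨t', ht', rfl⟩ := mem_image.mp ht
    obtain ⟨u', hu', rfl⟩ := mem_image.mp hu
    have h1 := hW t' ht' u' hu' (fun h => htu (by rw [h]))
    have h2 : |-t' - -u'| = |t' - u'| := by
      rw [← abs_neg]
      congr 1
      ring
    rw [h2]
    exact h1
  have h2N : ((2 * N : ℕ) : ℝ) = 2 * N := by push_cast; ring
  have hB : (N : ℝ) ^ B ≤ ((2 * N : ℕ) : ℝ) ^ B := by
    rw [h2N]
    exact pow_le_pow_left₀ (by linarith) (by linarith) B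
  have hmem : ∀ t ∈ S, -(t₀ + ((2 * N : ℕ) : ℝ) ^ B) ≤ t ∧ t ≤ -(t₀ + ((2 * N : ℕ) : ℝ) ^ B) + ((2 * N : ℕ) : ℝ) ^ B := by
    intro t ht
    obtain ⟨t', ht', rfl⟩ := mem_image.mp ht
    obtain ⟨h1, h2⟩ := h0 t' ht'
    constructor <;> linarith
  have h5 := hC (2 * N) (by omega) _ S hSep hmem (cut b N)
  rw [nb_link b N hN, hSc, h2N] at h5
  have h6 : ∑ t ∈ W, ‖P θ b N t‖ ^ 2 = ∑ t ∈ S, ‖DD (cut b N) θ (2 * N) t‖ ^ 2 := by
    rw [hS, sum_image (fun x _ y _ h => neg_injective h)]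
    apply sum_congr rfl
    intro t _
    rw [P_link θ hθ b N hN t]
  rw [h6]
  refine h5.trans ?_
  have hc : (0 : ℝ) ≤ W.card := Nat.cast_nonneg _
  have h7 : C * ((2 * N + W.card) * Real.log (2 * N) ^ 5) ≤ |C| * ((2 * (N + W.card)) * Real.log (2 * N) ^ 5) := by
    refine (mul_le_mul_of_nonneg_right (le_abs_self C) (by positivity)).trans ?_
    apply mul_le_mul_of_nonneg_left _ (abs_nonneg C)
    apply mul_le_mul_of_nonneg_right _ (by positivity)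
    linarith
  calc C * ((2 * N + W.card) * Real.log (2 * N) ^ 5) * X b N
      ≤ |C| * ((2 * (N + W.card)) * Real.log (2 * N) ^ 5) * X b N := mul_le_mul_of_nonneg_right h7 hX
    _ ≤ (2 * |C| + 1) * (N + W.card) * Real.log (2 * N) ^ 5 * X b N := by
        apply mul_le_mul_of_nonneg_right _ hX
        have : 0 ≤ (N + W.card : ℝ) * Real.log (2 * N) ^ 5 := by positivity
        nlinarith

theorem P_sup (θ : ℕ → ℝ) (hθ : ∀ n, θ n ∈ Set.Icc (0 : ℝ) 1) (b : ℕ → ℂ) (N : ℕ) (hN : 1 ≤ N) (t : ℝ) :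
    ‖P θ b N t‖ ^ 2 ≤ 2 * N * X b N := by
  have hN1 : (1 : ℝ) ≤ N := by exact_mod_cast hN
  have h1 : ‖P θ b N t‖ ≤ ∑ n ∈ Finset.Icc N (2 * N), ‖b n‖ := by
    unfold P
    refine (norm_sum_le _ _).trans (sum_le_sum fun n hn => ?_)
    have hn1 : 1 ≤ n := by
      have := (mem_Icc.mp hn).1
      omega
    have hn0 : (1 : ℝ) ≤ n := by exact_mod_cast hn1
    have h3 : (0 : ℝ) < n + θ n := by
      have := (hθ n).1
      linarith
    rw [norm_mul, Complex.norm_cpow_eq_rpow_re_of_pos h3]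
    simp
  have h2 : (∑ n ∈ Finset.Icc N (2 * N), ‖b n‖) ^ 2 ≤ (Finset.Icc N (2 * N)).card * X b N := by
    unfold X
    exact sq_sum_le_card_mul_sum_sq
  have h3 : ((Finset.Icc N (2 * N)).card : ℝ) ≤ 2 * N := by
    rw [Nat.card_Icc]
    have : (2 * N + 1 - N : ℕ) = N + 1 := by omega
    rw [this]
    push_cast
    linarith
  calc ‖P θ b N t‖ ^ 2 ≤ (∑ n ∈ Finset.Icc N (2 * N), ‖b n‖) ^ 2 := pow_le_pow_left₀ (norm_nonneg _) h1 2
    _ ≤ _ := h2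
    _ ≤ _ := mul_le_mul_of_nonneg_right h3 (X_nonneg b N)

/-- large values -/
theorem large {θ : ℕ → ℝ} {B : ℕ} {C : ℝ} (h : MS θ B C) (N : ℕ) (t₀ V : ℝ) (b : ℕ → ℂ)
    (W : Finset ℝ) (hN : 1 ≤ N) (h0 : ∀ t ∈ W, t₀ ≤ t ∧ t ≤ t₀ + (N : ℝ) ^ B) (hW : Sep1 W) (hV : 0 < V)
    (hVX : 2 * C * Real.log (2 * N) ^ 5 * X b N ≤ V ^ 2) (hl : ∀ t ∈ W, V ≤ ‖P θ b N t‖) :
    (W.card : ℝ) ≤ 2 * C * N * Real.log (2 * N) ^ 5 * X b N / V ^ 2 := by
  have h1 := h N t₀ b W hN h0 hW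
  have h2 : (W.card : ℝ) * V ^ 2 ≤ ∑ t ∈ W, ‖P θ b N t‖ ^ 2 := by
    rw [← nsmul_eq_mul]
    apply card_nsmul_le_sum
    intro t ht
    exact pow_le_pow_left₀ hV.le (hl t ht) 2
  have hc : (0 : ℝ) ≤ W.card := Nat.cast_nonneg _
  rw [le_div_iff₀ (by positivity)]
  nlinarith [mul_le_mul_of_nonneg_left hVX hc]

/-- moments -/
theorem moment {θ : ℕ → ℝ} (hθ : ∀ n, θ n ∈ Set.Icc (0 : ℝ) 1) {B : ℕ} {C : ℝ} (hC : 1 ≤ C) (h : MS θ B C)
    (N : ℕ) (t₀ q : ℝ) (b : ℕ → ℂ) (W : Finset ℝ) (hN : 1 ≤ N) (hq : 2 ≤ q)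
    (h0 : ∀ t ∈ W, t₀ ≤ t ∧ t ≤ t₀ + (N : ℝ) ^ B) (hW : Sep1 W) :
    ∑ t ∈ W, ‖P θ b N t‖ ^ q ≤ (2 * C) ^ (q / 2) *
      ((N : ℝ) ^ (q / 2) * Real.log (2 * N) ^ 5 + W.card * (Real.log (2 * N) ^ 5) ^ (q / 2)) * X b N ^ (q / 2) := by
  classical
  have hN1 : (1 : ℝ) ≤ N := by exact_mod_cast hN
  have hlog : 0 < Real.log (2 * N) := Real.log_pos (by linarith)
  have hL : 0 < Real.log (2 * N) ^ 5 := by positivity
  set L : ℝ := Real.log (2 * N) ^ 5 with hLdef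
  have hX := X_nonneg b N
  set Y := X b N with hY
  have hq2 : 1 ≤ q / 2 := by linarith
  have hc : (0 : ℝ) ≤ W.card := Nat.cast_nonneg _
  have key : ∀ t, ‖P θ b N t‖ ^ q = (‖P θ b N t‖ ^ 2) ^ (q / 2) := by
    intro t
    rw [← Real.rpow_natCast, ← Real.rpow_mul (norm_nonneg _)]
    congr 1
    push_cast
    ring
  set W' := W.filter (fun t => 2 * C * L * Y < ‖P θ b N t‖ ^ 2) with hW'
  have hW'sub : W' ⊆ W := filter_subset _ _
  have hms := h N t₀ b W' hN (fun t ht => h0 t (hW'sub ht)) (fun t ht u hu => hW t (hW'sub ht) u (hW'sub hu))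
  rw [← hY, ← hLdef] at hms
  have hc' : (0 : ℝ) ≤ W'.card := Nat.cast_nonneg _
  have h1 : (W'.card : ℝ) * (2 * C * L * Y) ≤ ∑ t ∈ W', ‖P θ b N t‖ ^ 2 := by
    rw [← nsmul_eq_mul]
    apply card_nsmul_le_sum
    intro t ht
    exact (mem_filter.mp ht).2.le
  have h2 : ∑ t ∈ W', ‖P θ b N t‖ ^ 2 ≤ 2 * C * N * L * Y := by
    have h3 : C * (N + W'.card) * L * Y = C * N * L * Y + (W'.card * (2 * C * L * Y)) / 2 := by ring
    rw [h3] at hms
    linarith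
  have h3 : ∑ t ∈ W', ‖P θ b N t‖ ^ q ≤ C * L * (2 * N * Y) ^ (q / 2) := by
    have h4 : ∀ t ∈ W', ‖P θ b N t‖ ^ q ≤ (2 * N * Y) ^ (q / 2 - 1) * ‖P θ b N t‖ ^ 2 := by
      intro t ht
      rw [key t]
      have hp : 0 < ‖P θ b N t‖ ^ 2 := lt_of_le_of_lt (by positivity) (mem_filter.mp ht).2
      have h5 : (‖P θ b N t‖ ^ 2) ^ (q / 2) = (‖P θ b N t‖ ^ 2) ^ (q / 2 - 1) * ‖P θ b N t‖ ^ 2 := by
        rw [← Real.rpow_add_one hp.ne']
        congr 1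
        ring
      rw [h5]
      apply mul_le_mul_of_nonneg_right _ hp.le
      exact Real.rpow_le_rpow hp.le (P_sup θ hθ b N hN t) (by linarith)
    calc ∑ t ∈ W', ‖P θ b N t‖ ^ q ≤ ∑ t ∈ W', (2 * N * Y) ^ (q / 2 - 1) * ‖P θ b N t‖ ^ 2 := sum_le_sum h4
      _ = (2 * N * Y) ^ (q / 2 - 1) * ∑ t ∈ W', ‖P θ b N t‖ ^ 2 := by rw [mul_sum]
      _ ≤ (2 * N * Y) ^ (q / 2 - 1) * (2 * C * N * L * Y) := mul_le_mul_of_nonneg_left h2 (by positivity)
      _ = C * L * ((2 * N * Y) ^ (q / 2 - 1) * (2 * N * Y)) := by ring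
      _ = C * L * (2 * N * Y) ^ (q / 2) := by
          rcases eq_or_lt_of_le hX with h0' | h0'
          · rw [← h0']
            rw [mul_zero, mul_zero, Real.zero_rpow (by linarith), mul_zero]
          · rw [← Real.rpow_add_one (by positivity)]
            congr 2
            ring
  have h4 : ∑ t ∈ W \ W', ‖P θ b N t‖ ^ q ≤ W.card * (2 * C * L * Y) ^ (q / 2) := by
    calc ∑ t ∈ W \ W', ‖P θ b N t‖ ^ q ≤ ∑ t ∈ W \ W', (2 * C * L * Y) ^ (q / 2) := by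
          apply sum_le_sum
          intro t ht
          replace ht := Finset.mem_sdiff.mp ht
          have h5 : ‖P θ b N t‖ ^ 2 ≤ 2 * C * L * Y := by
            by_contra h6
            exact ht.2 (mem_filter.mpr ⟨ht.1, not_le.mp h6⟩)
          rw [key t]
          exact Real.rpow_le_rpow (by positivity) h5 (by linarith)
      _ = ((W \ W').card : ℝ) * (2 * C * L * Y) ^ (q / 2) := by rw [sum_const, nsmul_eq_mul]
      _ ≤ W.card * (2 * C * L * Y) ^ (q / 2) := by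
          apply mul_le_mul_of_nonneg_right _ (by positivity)
          exact_mod_cast card_le_card sdiff_subset
  have h5 : ∑ t ∈ W, ‖P θ b N t‖ ^ q = ∑ t ∈ W \ W', ‖P θ b N t‖ ^ q + ∑ t ∈ W', ‖P θ b N t‖ ^ q :=
    (sum_sdiff hW'sub).symm
  rw [h5]
  have e1 : (2 * N * Y) ^ (q / 2) = 2 ^ (q / 2) * (N : ℝ) ^ (q / 2) * Y ^ (q / 2) := by
    rw [Real.mul_rpow (by positivity) hX, Real.mul_rpow (by norm_num) (by linarith)]
  have e2 : (2 * C * L * Y) ^ (q / 2) = (2 * C) ^ (q / 2) * L ^ (q / 2) * Y ^ (q / 2) := by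
    rw [Real.mul_rpow (by positivity) hX, Real.mul_rpow (by positivity) hL.le]
  have e3 : C * 2 ^ (q / 2) ≤ (2 * C) ^ (q / 2) := by
    rw [Real.mul_rpow (by norm_num) (by linarith), mul_comm C]
    apply mul_le_mul_of_nonneg_left _ (by positivity)
    calc C = C ^ (1 : ℝ) := (Real.rpow_one C).symm
      _ ≤ C ^ (q / 2) := Real.rpow_le_rpow_of_exponent_le hC hq2
  rw [e1] at h3
  rw [e2] at h4
  have hY2 : 0 ≤ Y ^ (q / 2) := by positivity
  have hN2 : 0 ≤ (N : ℝ) ^ (q / 2) := by positivity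
  have h6 : C * L * (2 ^ (q / 2) * (N : ℝ) ^ (q / 2) * Y ^ (q / 2)) ≤
      (2 * C) ^ (q / 2) * (N : ℝ) ^ (q / 2) * L * Y ^ (q / 2) := by
    calc C * L * (2 ^ (q / 2) * (N : ℝ) ^ (q / 2) * Y ^ (q / 2))
        = (C * 2 ^ (q / 2)) * ((N : ℝ) ^ (q / 2) * L * Y ^ (q / 2)) := by ring
      _ ≤ (2 * C) ^ (q / 2) * ((N : ℝ) ^ (q / 2) * L * Y ^ (q / 2)) :=
          mul_le_mul_of_nonneg_right e3 (by positivity)
      _ = _ := by ring
  calc ∑ t ∈ W \ W', ‖P θ b N t‖ ^ q + ∑ t ∈ W', ‖P θ b N t‖ ^ q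
      ≤ W.card * ((2 * C) ^ (q / 2) * L ^ (q / 2) * Y ^ (q / 2)) +
        (2 * C) ^ (q / 2) * (N : ℝ) ^ (q / 2) * L * Y ^ (q / 2) := add_le_add h4 (h3.trans h6)
    _ = _ := by ring

end Pool.Agent.U485.RF
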