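import Pool.Agent.U485.RF.Core
set_option autoImplicit false

/-!
# The two consequences for bounded coefficients
-/

namespace Pool.Agent.U485.RF

open MeasureTheory Finset Filter Pool.Agent.U160.RF

/-- a power of the logarithm is at most a small power -/
theorem log5 (δ : ℝ) (hδ : 0 < δ) : ∃ K : ℝ, 1 ≤ K ∧ ∀ N : ℕ, 1 ≤ N → Real.log (2 * N) ^ 5 ≤ K * (N : ℝ) ^ δ := by
  refine ⟨max 1 (2 ^ δ * (5 / δ) ^ 5), le_max_left _ _, fun N hN => ?_⟩
  have hN1 : (1 : ℝ) ≤ N := by exact_mod_cast hN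
  have h0 : 0 ≤ Real.log (2 * N) := Real.log_nonneg (by linarith)
  have h1 : Real.log (2 * N) ≤ (2 * N : ℝ) ^ (δ / 5) / (δ / 5) := Real.log_le_rpow_div (by positivity) (by positivity)
  calc Real.log (2 * N) ^ 5 ≤ ((2 * N : ℝ) ^ (δ / 5) / (δ / 5)) ^ 5 := pow_le_pow_left₀ h0 h1 5
    _ = ((2 * N : ℝ) ^ (δ / 5)) ^ 5 * (5 / δ) ^ 5 := by
        rw [div_eq_mul_inv, mul_pow]
        congr 2
        field_simp
    _ = (2 * N : ℝ) ^ δ * (5 / δ) ^ 5 := by
        congr 1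
        rw [← Real.rpow_natCast, ← Real.rpow_mul (by positivity)]
        congr 1
        push_cast
        ring
    _ = (2 ^ δ * (5 / δ) ^ 5) * (N : ℝ) ^ δ := by
        rw [Real.mul_rpow (by norm_num) (by linarith)]
        ring
    _ ≤ max 1 (2 ^ δ * (5 / δ) ^ 5) * (N : ℝ) ^ δ :=
        mul_le_mul_of_nonneg_right (le_max_right _ _) (by positivity)

theorem X_le (b : ℕ → ℂ) (N : ℕ) (hN : 1 ≤ N) (hb : ∀ n ∈ Finset.Icc N (2 * N), ‖b n‖ ≤ 1) : X b N ≤ 2 * N := by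
  have hN1 : (1 : ℝ) ≤ N := by exact_mod_cast hN
  have h3 : ((Finset.Icc N (2 * N)).card : ℝ) ≤ 2 * N := by
    rw [Nat.card_Icc]
    have : (2 * N + 1 - N : ℕ) = N + 1 := by omega
    rw [this]
    push_cast
    linarith
  refine le_trans ?_ h3
  unfold X
  calc ∑ n ∈ Finset.Icc N (2 * N), ‖b n‖ ^ 2 ≤ ∑ n ∈ Finset.Icc N (2 * N), (1 : ℝ) := by
        apply sum_le_sum
        intro n hn
        exact pow_le_one₀ (norm_nonneg _) (hb n hn)
    _ = ((Finset.Icc N (2 * N)).card : ℝ) := by simp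

/-- Montgomery's large value conjecture from the mean square bounds -/
theorem large_bdd {θ : ℕ → ℝ} (h : ∀ B : ℕ, ∃ C : ℝ, 1 ≤ C ∧ MS θ B C) (σ A ε : ℝ) (hσ : 1 / 2 < σ)
    (hA : 1 ≤ A) (hε : 0 < ε) : ∃ C : ℝ, 0 < C ∧
      ∀ (N : ℕ) (T : ℝ) (b : ℕ → ℂ) (W : Finset ℤ), 1 ≤ N → (N : ℝ) ≤ T → T ≤ (N : ℝ) ^ A →
        (∀ n ∈ Finset.Icc N (2 * N), ‖b n‖ ≤ 1) →
        (∀ t ∈ W, 0 ≤ (t : ℝ) ∧ (t : ℝ) ≤ T ∧ (N : ℝ) ^ σ < ‖P θ b N t‖) →
        (W.card : ℝ) ≤ C * (N : ℝ) ^ (2 - 2 * σ + ε) := by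
  obtain ⟨C, hC, hMS⟩ := h ⌈A⌉₊
  set δ := (2 * σ - 1) / 2 with hδ
  have hδ0 : 0 < δ := by rw [hδ]; linarith
  obtain ⟨K, hK, hlog⟩ := log5 δ hδ0
  obtain ⟨K', hK', hlog'⟩ := log5 ε hε
  refine ⟨2 * (4 * C * K) ^ ((A + 2 * σ) / δ) + 4 * C * K', by positivity, ?_⟩
  intro N T b W hN hNT hTA hb hW
  have hN1 : (1 : ℝ) ≤ N := by exact_mod_cast hN
  have hN0 : (0 : ℝ) < N := by linarith
  have hX := X_le b N hN hb
  have hX0 := X_nonneg b N
  have hL0 : 0 ≤ Real.log (2 * N) := Real.log_nonneg (by linarith)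
  have hP : 0 < (N : ℝ) ^ (2 - 2 * σ + ε) := by positivity
  have hCK : 0 < 4 * C * K := by positivity
  by_cases hbig : 4 * C * K ≤ (N : ℝ) ^ δ
  · -- large `N`
    have hinj : Function.Injective (fun n : ℤ => (n : ℝ)) := Int.cast_injective
    have hTB : T ≤ (N : ℝ) ^ ⌈A⌉₊ := by
      refine hTA.trans ?_
      rw [← Real.rpow_natCast]
      exact Real.rpow_le_rpow_of_exponent_le hN1 (Nat.le_ceil A)
    have hV : (0 : ℝ) < (N : ℝ) ^ σ := by positivity
    have hV2 : ((N : ℝ) ^ σ) ^ 2 = (N : ℝ) ^ (2 * σ) := by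
      rw [← Real.rpow_natCast, ← Real.rpow_mul hN0.le]
      congr 1
      push_cast
      ring
    have hcond : 2 * C * Real.log (2 * N) ^ 5 * X b N ≤ ((N : ℝ) ^ σ) ^ 2 := by
      rw [hV2]
      calc 2 * C * Real.log (2 * N) ^ 5 * X b N ≤ 2 * C * (K * (N : ℝ) ^ δ) * (2 * N) := by
            apply mul_le_mul _ hX hX0 (by positivity)
            exact mul_le_mul_of_nonneg_left (hlog N hN) (by positivity)
        _ = (4 * C * K) * ((N : ℝ) ^ δ * N) := by ring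
        _ ≤ (N : ℝ) ^ δ * ((N : ℝ) ^ δ * N) := mul_le_mul_of_nonneg_right hbig (by positivity)
        _ = (N : ℝ) ^ (2 * σ) := by
            rw [← Real.rpow_add_one hN0.ne', ← Real.rpow_add hN0]
            congr 1
            rw [hδ]
            ring
    have h1 := large hMS N 0 ((N : ℝ) ^ σ) b (W.image (fun n : ℤ => (n : ℝ))) hN (by
        intro t ht
        obtain ⟨n, hn, rfl⟩ := mem_image.mp ht
        obtain ⟨h2, h3, _⟩ := hW n hn
        rw [zero_add]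
        exact ⟨h2, h3.trans hTB⟩) (by
        intro t ht u hu htu
        obtain ⟨n, hn, rfl⟩ := mem_image.mp ht
        obtain ⟨m, hm, rfl⟩ := mem_image.mp hu
        have h2 : n - m ≠ 0 := fun h => htu (by rw [sub_eq_zero.mp h])
        have h3 : 1 ≤ |n - m| := Int.one_le_abs h2
        exact_mod_cast h3) hV hcond (by
        intro t ht
        obtain ⟨n, hn, rfl⟩ := mem_image.mp ht
        exact (hW n hn).2.2.le)
    rw [card_image_of_injective _ hinj] at h1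
    refine h1.trans ?_
    rw [hV2]
    calc 2 * C * N * Real.log (2 * N) ^ 5 * X b N / (N : ℝ) ^ (2 * σ)
        ≤ 2 * C * N * (K' * (N : ℝ) ^ ε) * (2 * N) / (N : ℝ) ^ (2 * σ) := by
          apply div_le_div_of_nonneg_right _ (by positivity)
          apply mul_le_mul _ hX hX0 (by positivity)
          exact mul_le_mul_of_nonneg_left (hlog' N hN) (by positivity)
      _ = 4 * C * K' * ((N : ℝ) ^ (2 : ℝ) * (N : ℝ) ^ ε / (N : ℝ) ^ (2 * σ)) := by
          rw [Real.rpow_two]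
          ring
      _ = 4 * C * K' * (N : ℝ) ^ (2 - 2 * σ + ε) := by
          rw [← Real.rpow_add hN0, ← Real.rpow_sub hN0]
          congr 2
          ring
      _ ≤ _ := by
          apply mul_le_mul_of_nonneg_right _ hP.le
          have : 0 ≤ (4 * C * K) ^ ((A + 2 * σ) / δ) := by positivity
          linarith
  · -- small `N`
    push Not at hbig
    have hc1 : (W.card : ℝ) ≤ T + 1 := by
      have h1 : W ⊆ Finset.Icc 0 ⌊T⌋ := by
        intro t ht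
        rw [Finset.mem_Icc]
        obtain ⟨h2, h3, _⟩ := hW t ht
        exact ⟨by exact_mod_cast h2, Int.le_floor.mpr h3⟩
      have h2 := card_le_card h1
      rw [Int.card_Icc] at h2
      have h3 : (0 : ℤ) ≤ ⌊T⌋ := Int.floor_nonneg.mpr (by linarith)
      have h4 : ((⌊T⌋ + 1 - 0).toNat : ℤ) = ⌊T⌋ + 1 := by
        rw [Int.toNat_of_nonneg (by linarith)]
        ring
      have h5 : (W.card : ℤ) ≤ ⌊T⌋ + 1 := by
        rw [← h4]
        exact_mod_cast h2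
      have h6 : (W.card : ℝ) ≤ (⌊T⌋ : ℝ) + 1 := by exact_mod_cast h5
      linarith [Int.floor_le T]
    have h2 : T + 1 ≤ 2 * (N : ℝ) ^ A := by linarith
    have h3 : (N : ℝ) ^ A ≤ (4 * C * K) ^ ((A + 2 * σ) / δ) * (N : ℝ) ^ (2 - 2 * σ + ε) := by
      calc (N : ℝ) ^ A = (N : ℝ) ^ (A - (2 - 2 * σ + ε)) * (N : ℝ) ^ (2 - 2 * σ + ε) := by
            rw [← Real.rpow_add hN0]
            congr 1
            ring
        _ ≤ (N : ℝ) ^ (A + 2 * σ) * (N : ℝ) ^ (2 - 2 * σ + ε) := by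
            apply mul_le_mul_of_nonneg_right _ hP.le
            exact Real.rpow_le_rpow_of_exponent_le hN1 (by linarith)
        _ = ((N : ℝ) ^ δ) ^ ((A + 2 * σ) / δ) * (N : ℝ) ^ (2 - 2 * σ + ε) := by
            rw [← Real.rpow_mul hN0.le]
            congr 2
            field_simp
        _ ≤ _ := by
            apply mul_le_mul_of_nonneg_right _ hP.le
            apply Real.rpow_le_rpow (by positivity) hbig.le
            have : 0 ≤ A + 2 * σ := by linarith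
            positivity
    calc (W.card : ℝ) ≤ 2 * (N : ℝ) ^ A := hc1.trans h2
      _ ≤ 2 * ((4 * C * K) ^ ((A + 2 * σ) / δ) * (N : ℝ) ^ (2 - 2 * σ + ε)) := by linarith
      _ = 2 * (4 * C * K) ^ ((A + 2 * σ) / δ) * (N : ℝ) ^ (2 - 2 * σ + ε) := by ring
      _ ≤ _ := by
          apply mul_le_mul_of_nonneg_right _ hP.le
          have : 0 ≤ 4 * C * K' := by positivity
          linarith

/-- Montgomery's moment conjecture from the mean square bounds -/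
theorem moment_bdd {θ : ℕ → ℝ} (hθ : ∀ n, θ n ∈ Set.Icc (0 : ℝ) 1)
    (h : ∀ B : ℕ, ∃ C : ℝ, 1 ≤ C ∧ MS θ B C) (q A ε : ℝ) (hq : 2 ≤ q) (hε : 0 < ε) :
    ∃ K : ℝ, 0 < K ∧ ∀ (N T : ℕ) (b : ℕ → ℂ), 1 ≤ N → N ≤ T → (T : ℝ) ≤ (N : ℝ) ^ A →
        (∀ n ∈ Finset.Icc N (2 * N), ‖b n‖ ≤ 1) →
        ∑ t ∈ Finset.Icc 1 T, ‖P θ b N t‖ ^ q ≤ K * (N : ℝ) ^ ε * ((N : ℝ) ^ q + T * (N : ℝ) ^ (q / 2)) := by
  obtain ⟨C, hC, hMS⟩ := h ⌈A⌉₊
  have hq0 : 0 < q := by linarith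
  obtain ⟨K, hK, hlog⟩ := log5 (2 * ε / q) (by positivity)
  refine ⟨(2 * C) ^ (q / 2) * K ^ (q / 2) * 2 ^ (q / 2), by positivity, ?_⟩
  intro N T b hN hNT hTA hb
  have hN1 : (1 : ℝ) ≤ N := by exact_mod_cast hN
  have hN0 : (0 : ℝ) < N := by linarith
  have hX := X_le b N hN hb
  have hX0 := X_nonneg b N
  have hL0 : 0 ≤ Real.log (2 * N) := Real.log_nonneg (by linarith)
  have hinj : Function.Injective (fun n : ℕ => (n : ℝ)) := Nat.cast_injective
  have hTB : (T : ℝ) ≤ (N : ℝ) ^ ⌈A⌉₊ := by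
    refine hTA.trans ?_
    rw [← Real.rpow_natCast]
    exact Real.rpow_le_rpow_of_exponent_le hN1 (Nat.le_ceil A)
  have h1 := moment hθ hC hMS N 0 q b ((Finset.Icc 1 T).image (fun n : ℕ => (n : ℝ))) hN hq (by
      intro t ht
      obtain ⟨n, hn, rfl⟩ := mem_image.mp ht
      have h2 := (mem_Icc.mp hn).2
      have h3 : (n : ℝ) ≤ T := by exact_mod_cast h2
      rw [zero_add]
      exact ⟨Nat.cast_nonneg n, h3.trans hTB⟩) (by
      intro t ht u hu htu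
      obtain ⟨n, hn, rfl⟩ := mem_image.mp ht
      obtain ⟨m, hm, rfl⟩ := mem_image.mp hu
      have h2 : (n : ℤ) - m ≠ 0 := fun h => htu (by
        have : n = m := by omega
        rw [this])
      have h3 : 1 ≤ |(n : ℤ) - m| := Int.one_le_abs h2
      exact_mod_cast h3)
  rw [sum_image (fun x _ y _ h => hinj h), card_image_of_injective _ hinj, Nat.card_Icc,
    Nat.add_sub_cancel] at h1
  refine h1.trans ?_
  have hKN : Real.log (2 * N) ^ 5 ≤ K * (N : ℝ) ^ (2 * ε / q) := hlog N hN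
  have hKN1 : 1 ≤ K * (N : ℝ) ^ (2 * ε / q) := by
    have : 1 ≤ (N : ℝ) ^ (2 * ε / q) := Real.one_le_rpow hN1 (by positivity)
    nlinarith
  have hpow : (K * (N : ℝ) ^ (2 * ε / q)) ^ (q / 2) = K ^ (q / 2) * (N : ℝ) ^ ε := by
    rw [Real.mul_rpow (by positivity) (by positivity), ← Real.rpow_mul hN0.le]
    congr 2
    field_simp
  have hA1 : Real.log (2 * N) ^ 5 ≤ K ^ (q / 2) * (N : ℝ) ^ ε := by
    rw [← hpow]
    refine hKN.trans ?_
    calc K * (N : ℝ) ^ (2 * ε / q) = (K * (N : ℝ) ^ (2 * ε / q)) ^ (1 : ℝ) := (Real.rpow_one _).symm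
      _ ≤ _ := Real.rpow_le_rpow_of_exponent_le hKN1 (by linarith)
  have hA2 : (Real.log (2 * N) ^ 5) ^ (q / 2) ≤ K ^ (q / 2) * (N : ℝ) ^ ε := by
    rw [← hpow]
    exact Real.rpow_le_rpow (by positivity) hKN (by positivity)
  have hX2 : X b N ^ (q / 2) ≤ 2 ^ (q / 2) * (N : ℝ) ^ (q / 2) := by
    rw [← Real.mul_rpow (by norm_num) hN0.le]
    exact Real.rpow_le_rpow hX0 hX (by positivity)
  have hT0 : (0 : ℝ) ≤ T := Nat.cast_nonneg T
  calc (2 * C) ^ (q / 2) * ((N : ℝ) ^ (q / 2) * Real.log (2 * N) ^ 5 +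
          T * (Real.log (2 * N) ^ 5) ^ (q / 2)) * X b N ^ (q / 2)
      ≤ (2 * C) ^ (q / 2) * ((N : ℝ) ^ (q / 2) * (K ^ (q / 2) * (N : ℝ) ^ ε) +
          T * (K ^ (q / 2) * (N : ℝ) ^ ε)) * (2 ^ (q / 2) * (N : ℝ) ^ (q / 2)) := by
        apply mul_le_mul _ hX2 (by positivity) (by positivity)
        apply mul_le_mul_of_nonneg_left _ (by positivity)
        apply add_le_add
        · exact mul_le_mul_of_nonneg_left hA1 (by positivity)
        · exact mul_le_mul_of_nonneg_left hA2 hT0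
    _ = (2 * C) ^ (q / 2) * K ^ (q / 2) * 2 ^ (q / 2) * (N : ℝ) ^ ε *
          ((N : ℝ) ^ (q / 2) * (N : ℝ) ^ (q / 2) + T * (N : ℝ) ^ (q / 2)) := by ring
    _ = _ := by
        rw [← Real.rpow_add hN0]
        congr 3
        ring

end Pool.Agent.U485.RF
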